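import Mathlib
import Pool.Agent.Q103.SD.Abc

/-!
# abc for products of powers of numbers with small digits, with arbitrary exponents

The bases are numbers `q_i = F_i(t)` with small digits (of either sign) in a large base `t`, with last
digit `0`, `1` or `-1`. One member of `a + b = c` is composed of bases with last digit `0`, the other
two of bases with last digit `1` or `-1`; small coefficients are allowed.
-/

set_option autoImplicit false

namespace Pool.Agent.Results.MP_2ec8a3_nt.SmallDigits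

open Polynomial Finset

/-- The product of the distinct primes dividing `n`. -/
def rad (n : ℤ) : ℕ := ∏ p ∈ n.natAbs.primeFactors, p

/-- The set of the bases that occur in one of the three terms. -/
def used {n : ℕ} (l b c : Fin n → ℕ) : Finset (Fin n) :=
  Finset.univ.filter (fun i => l i ≠ 0 ∨ b i ≠ 0 ∨ c i ≠ 0)

/-- The bases `F_i(t)`, `i < n`, are the values at `t` of nonconstant polynomials with coefficients
(digits) of absolute value at most `H` and last digit `0`, `1` or `-1`, of total degree at most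
`K`; the coefficients `α`, `β`, `γ` are nonzero of absolute value at most `H`; the first term is
composed of bases with last digit `0`, the other two of bases with last digit `1` or `-1`. There is
no condition on the size of the exponents `l`, `b`, `c`. -/
structure Terms (K : ℕ) (H : ℝ) {n : ℕ} (F : Fin n → ℤ[X]) (α β γ : ℤ)
    (l b c : Fin n → ℕ) : Prop where
  pos : ∀ i, 0 < (F i).natDegree
  deg : ∑ i, (F i).natDegree ≤ K
  digits : ∀ i j, |((F i).coeff j : ℝ)| ≤ H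
  last : ∀ i, (F i).coeff 0 = 0 ∨ (F i).coeff 0 = 1 ∨ (F i).coeff 0 = -1
  ne : α ≠ 0 ∧ β ≠ 0 ∧ γ ≠ 0
  coef : |(α : ℝ)| ≤ H ∧ |(β : ℝ)| ≤ H ∧ |(γ : ℝ)| ≤ H
  first : ∀ i, l i ≠ 0 → (F i).coeff 0 = 0
  second : ∀ i, b i ≠ 0 → (F i).coeff 0 ≠ 0
  third : ∀ i, c i ≠ 0 → (F i).coeff 0 ≠ 0

theorem result (K : ℕ) (ε : ℝ) (hε : 0 < ε) : ∃ δ : ℝ, 0 < δ ∧ ∃ t₀ : ℕ, ∀ t : ℕ, t₀ ≤ t →
    ∀ (n : ℕ) (F : Fin n → ℤ[X]) (α β γ : ℤ) (l b c : Fin n → ℕ),
      Terms K ((t : ℝ) ^ δ) F α β γ l b c →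
      α * ∏ i, (F i).eval (t : ℤ) ^ l i + β * ∏ i, (F i).eval (t : ℤ) ^ b i =
        γ * ∏ i, (F i).eval (t : ℤ) ^ c i →
      C α * ∏ i, F i ^ l i + C β * ∏ i, F i ^ b i = C γ * ∏ i, F i ^ c i ∧
      (IsCoprime (α * ∏ i, (F i).eval (t : ℤ) ^ l i) (β * ∏ i, (F i).eval (t : ℤ) ^ b i) →
        (used l b c).Nonempty →
        ∀ x : ℤ, x = α * ∏ i, (F i).eval (t : ℤ) ^ l i ∨ x = β * ∏ i, (F i).eval (t : ℤ) ^ b i ∨
            x = γ * ∏ i, (F i).eval (t : ℤ) ^ c i →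
          |(x : ℝ)| * (t : ℝ) ^ (1 - ε) ≤ |((∏ i ∈ used l b c, (F i).eval (t : ℤ) : ℤ) : ℝ)| ∧
          |(x : ℝ)| * (t : ℝ) ^ (1 - ε) * rad (∏ i ∈ used l b c, (F i).eval (t : ℤ)) ≤
            |((∏ i ∈ used l b c, (F i).eval (t : ℤ) : ℤ) : ℝ)| *
              rad ((α * ∏ i, (F i).eval (t : ℤ) ^ l i) * (β * ∏ i, (F i).eval (t : ℤ) ^ b i) *
                (γ * ∏ i, (F i).eval (t : ℤ) ^ c i)) ∧
          (Squarefree (∏ i ∈ used l b c, (F i).eval (t : ℤ)) →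
            |(x : ℝ)| * (t : ℝ) ^ (1 - ε) ≤
              rad ((α * ∏ i, (F i).eval (t : ℤ) ^ l i) * (β * ∏ i, (F i).eval (t : ℤ) ^ b i) *
                (γ * ∏ i, (F i).eval (t : ℤ) ^ c i)))) := by
  obtain ⟨δ₁, hδ₁, hδ₁', t₁, ht₁, h1⟩ := Pool.Agent.Q103.SD.three K
  obtain ⟨δ₂, hδ₂, t₂, h2⟩ := Pool.Agent.Q103.SD.abc_size K ε hε
  refine ⟨min δ₁ δ₂, lt_min hδ₁ hδ₂, max t₁ t₂, ?_⟩
  intro t ht n F α β γ l b c hS heq
  have htt₁ : t₁ ≤ t := (le_max_left _ _).trans ht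
  have htt₂ : t₂ ≤ t := (le_max_right _ _).trans ht
  have ht1 : (1 : ℝ) ≤ t := by exact_mod_cast (show 1 ≤ t by omega)
  have hconv : ∀ δ : ℝ, min δ₁ δ₂ ≤ δ →
      Pool.Agent.Q103.SD.Data t K ((t : ℝ) ^ δ) F α β γ l b c := by
    intro δ hδ
    have hle : (t : ℝ) ^ (min δ₁ δ₂) ≤ (t : ℝ) ^ δ := Real.rpow_le_rpow_of_exponent_le ht1 hδ
    exact ⟨hS.pos, hS.deg, fun i j => (hS.digits i j).trans hle, fun i => by
      rcases hS.last i with h | h | h <;> rw [h] <;> norm_num, hS.ne.1, hS.ne.2.1, hS.ne.2.2,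
      hS.coef.1.trans hle, hS.coef.2.1.trans hle, hS.coef.2.2.trans hle, hS.first, hS.second,
      hS.third⟩
  have hD1 := hconv δ₁ (min_le_left _ _)
  have hD2 := hconv δ₂ (min_le_right _ _)
  have hid := h1 t htt₁ n F α β γ l b c hD1 heq
  refine ⟨hid, fun hcop hU x hx => ?_⟩
  have hsize := h2 t htt₂ n F α β γ l b c hD2 hcop hid hU x hx
  obtain ⟨Q, hQ⟩ : ∃ Q : ℤ, Q = ∏ i ∈ used l b c, (F i).eval (t : ℤ) := ⟨_, rfl⟩
  obtain ⟨A, hA⟩ : ∃ A : ℤ, A = α * ∏ i, (F i).eval (t : ℤ) ^ l i := ⟨_, rfl⟩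
  obtain ⟨B, hB⟩ : ∃ B : ℤ, B = β * ∏ i, (F i).eval (t : ℤ) ^ b i := ⟨_, rfl⟩
  obtain ⟨G, hG⟩ : ∃ G : ℤ, G = γ * ∏ i, (F i).eval (t : ℤ) ^ c i := ⟨_, rfl⟩
  have hsize' : |(x : ℝ)| * (t : ℝ) ^ (1 - ε) ≤ |(Q : ℝ)| := by rw [hQ]; exact hsize
  rw [← hQ, ← hA, ← hB, ← hG]
  obtain ⟨r, hr⟩ : ∃ r : ℝ, r = (t : ℝ) ^ (1 / 2 : ℝ) := ⟨_, rfl⟩
  have hF0 : ∀ i, (F i).eval (t : ℤ) ≠ 0 := by
    intro i h0
    have ht0 : (0 : ℝ) < t := by linarith
    have ht64 : (64 : ℝ) ≤ t := by exact_mod_cast ht₁.trans htt₁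
    have hrr : r * r = t := by
      rw [hr, ← Real.rpow_add ht0]
      norm_num
    have hr8 : 8 ≤ r := by
      have hr0 : 0 ≤ r := by rw [hr]; positivity
      nlinarith
    have hBr : (t : ℝ) ^ δ₁ ≤ r := by
      rw [hr]
      exact Real.rpow_le_rpow_of_exponent_le (by linarith) hδ₁'
    have hne : F i ≠ 0 := fun h => by
      have := hS.pos i
      rw [h, natDegree_zero] at this
      omega
    have h3 := (Pool.Agent.Q103.SD.value_size (t := t) (by omega) (by positivity)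
      (by nlinarith) (hD1.coeff i) hne).1
    rw [h0, Int.cast_zero, abs_zero] at h3
    have h4 : (0 : ℝ) < (t : ℝ) ^ (F i).natDegree := by positivity
    linarith
  have hprod : ∀ e : Fin n → ℕ, ∏ i, (F i).eval (t : ℤ) ^ e i ≠ 0 := fun e =>
    Finset.prod_ne_zero_iff.mpr fun i _ => pow_ne_zero _ (hF0 i)
  have hABG : A * B * G ≠ 0 := by
    rw [hA, hB, hG]
    exact mul_ne_zero (mul_ne_zero (mul_ne_zero hS.ne.1 (hprod l)) (mul_ne_zero hS.ne.2.1 (hprod b)))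
      (mul_ne_zero hS.ne.2.2 (hprod c))
  have hQ0 : Q ≠ 0 := by rw [hQ]; exact Finset.prod_ne_zero_iff.mpr fun i _ => hF0 i
  have hrad : rad Q ≤ rad (A * B * G) := by
    refine Pool.Agent.Q103.SD.rad_le hABG fun p hp hpQ => ?_
    have hpp : Prime (p : ℤ) := Nat.prime_iff_prime_int.mp hp
    rw [hQ] at hpQ
    obtain ⟨i, hi, hpi⟩ := (hpp.dvd_finsetProd_iff _).mp hpQ
    have hd : ∀ e : Fin n → ℕ, e i ≠ 0 → (p : ℤ) ∣ ∏ i, (F i).eval (t : ℤ) ^ e i := fun e he =>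
      (hpi.trans (dvd_pow_self _ he)).trans
        (Finset.dvd_prod_of_mem (fun i => (F i).eval (t : ℤ) ^ e i) (Finset.mem_univ i))
    rcases (Finset.mem_filter.mp hi).2 with h | h | h
    · rw [hA]
      exact (((hd l h).mul_left _).mul_right _).mul_right _
    · rw [hB]
      exact (((hd b h).mul_left _).mul_left _).mul_right _
    · rw [hG]
      exact ((hd c h).mul_left _).mul_left _
  have hradR : (rad Q : ℝ) ≤ rad (A * B * G) := by exact_mod_cast hrad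
  have hsecond : |(x : ℝ)| * (t : ℝ) ^ (1 - ε) * rad Q ≤ |(Q : ℝ)| * rad (A * B * G) :=
    mul_le_mul hsize' hradR (by positivity) (abs_nonneg _)
  refine ⟨hsize', hsecond, fun hsq => hsize'.trans ?_⟩
  have hQrad : |(Q : ℝ)| = rad Q := by
    have h3 : Squarefree Q.natAbs := Int.squarefree_natAbs.mpr hsq
    have h4 : rad Q = Q.natAbs := Nat.prod_primeFactors_of_squarefree h3
    rw [h4, Nat.cast_natAbs]
    push_cast
    rfl
  rw [hQrad]
  exact hradR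

end Pool.Agent.Results.MP_2ec8a3_nt.SmallDigits
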