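import Mathlib
import Pool.Agent.Q273.CJ.Spec

/-!
# The abc triples of the convergents of real numbers

Every rational number `r = p / q ≠ 0, 1` gives the abc triple formed by `|p|`, `q` and `|p - q|`.
-/

set_option autoImplicit false

namespace Pool.Agent.Results.MP_2ec8a3_nt.ConvergentSpectrum

open Filter Topology MeasureTheory

/-- the radical `rad(m)`: the product of the distinct primes dividing `m` -/
def rad (m : ℕ) : ℕ := ∏ p ∈ m.primeFactors, p

/-- the largest member `c` of the triple of `r = p / q`, formed by `|p|`, `q` and `|p - q|` -/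
def c (r : ℚ) : ℕ := max (max r.num.natAbs r.den) (r.num - r.den).natAbs

/-- the product `abc` of the three members of the triple of `r = p / q` -/
def abc (r : ℚ) : ℕ := r.num.natAbs * r.den * (r.num - r.den).natAbs

/-- the quality `log c / log rad(abc)` of the triple of `r` -/
noncomputable def quality (r : ℚ) : ℝ := Real.log (c r) / Real.log (rad (abc r))

/-- the limit superior of the qualities of the triples of the convergents of `ξ` -/
noncomputable def M (ξ : ℝ) : EReal := limsup (fun n => ((quality (ξ.convergent n) : ℝ) : EReal)) atTop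

/-- the bound for the dimension, a continuous function -/
noncomputable def G (t : ℝ) : ℝ :=
  if t ≤ 1 / 2 then (1 - t) / (2 * t)
  else if t ≤ 9 / 16 then 1 / 2
  else if t ≤ 2 / 3 then (9 - t) / (30 * t)
  else if t ≤ 1 then 5 * (10 - t) / (168 * t)
  else if t ≤ 3 / 2 then (13 + 2 * t) / (56 * t)
  else 2 / (7 * t)

private theorem F_eq_G {t : ℝ} (ht : 0 < t) : Q273.AbcR.F (1 / t) / 2 = G t := by
  unfold Q273.AbcR.F G
  have e1 : 1 / t ≤ 2 / 3 ↔ 3 / 2 ≤ t := by
    rw [div_le_div_iff₀ ht (by norm_num)]
    constructor <;> intro h <;> linarith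
  have e2 : 1 / t ≤ 1 ↔ 1 ≤ t := by rw [div_le_one ht]
  have e3 : 1 / t ≤ 3 / 2 ↔ 2 / 3 ≤ t := by
    rw [div_le_div_iff₀ ht (by norm_num)]
    constructor <;> intro h <;> linarith
  have e4 : 1 / t ≤ 16 / 9 ↔ 9 / 16 ≤ t := by
    rw [div_le_div_iff₀ ht (by norm_num)]
    constructor <;> intro h <;> linarith
  have e5 : 1 / t ≤ 2 ↔ 1 / 2 ≤ t := by
    rw [div_le_iff₀ ht]
    constructor <;> intro h <;> linarith
  simp only [e1, e2, e3, e4, e5]
  rcases lt_trichotomy t (3 / 2) with h | h | h
  · rcases lt_trichotomy t 1 with h1 | h1 | h1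
    · rcases lt_trichotomy t (2 / 3) with h2 | h2 | h2
      · rcases lt_trichotomy t (9 / 16) with h3 | h3 | h3
        · rcases lt_trichotomy t (1 / 2) with h4 | h4 | h4
          · rw [if_neg (by linarith), if_neg (by linarith), if_neg (by linarith),
              if_neg (by linarith), if_neg (by linarith), if_pos (by linarith)]
            field_simp
          · subst h4
            norm_num
          · rw [if_neg (by linarith), if_neg (by linarith), if_neg (by linarith),
              if_neg (by linarith), if_pos (by linarith), if_neg (by linarith),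
              if_pos (by linarith)]
        · subst h3
          norm_num
        · rw [if_neg (by linarith), if_neg (by linarith), if_neg (by linarith),
            if_pos (by linarith), if_neg (by linarith), if_neg (by linarith),
            if_pos (by linarith)]
          field_simp
          ring
      · subst h2
        norm_num
      · rw [if_neg (by linarith), if_neg (by linarith), if_pos (by linarith),
          if_neg (by linarith), if_neg (by linarith), if_neg (by linarith), if_pos (by linarith)]
        field_simp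
        ring
    · subst h1
      norm_num
    · rw [if_neg (by linarith), if_pos (by linarith), if_neg (by linarith),
        if_neg (by linarith), if_neg (by linarith), if_neg (by linarith), if_pos (by linarith)]
      field_simp
      ring
  · subst h
    norm_num
  · rw [if_pos (by linarith), if_neg (by linarith), if_neg (by linarith),
      if_neg (by linarith), if_neg (by linarith), if_neg (by linarith)]
    field_simp
    norm_num

/-- **The abc triples of the convergents of real numbers.** A rational number `r = p / q` gives the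
abc triple formed by `|p|`, `q`, `|p - q|`; `M ξ` is the limit superior of the qualities
`log c / log rad(abc)` of the triples of the convergents of `ξ`.
(1) `M ξ ≥ 1 / 3` for all irrational numbers, and for almost all real numbers `ξ` the qualities of
the triples of the convergents tend to `1 / 3`.
(2) For `1 / 3 ≤ t < 1 / 2` the set of irrational numbers with `M ξ = t` has Hausdorff dimension
`(1 - t) / (2 t)`.
(3) For all `t > 0` the set of irrational numbers with `M ξ ≥ t` has Hausdorff dimension at most
`G t`, where `G t = (1 - t) / (2 t)` for `t ≤ 1 / 2`, and at least `(1 - t) / (2 t)` for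
`1 / 3 ≤ t ≤ 1`. -/
theorem result :
    ((∀ ξ : ℝ, Irrational ξ → ((1 / 3 : ℝ) : EReal) ≤ M ξ) ∧
      ∀ᵐ ξ : ℝ, Tendsto (fun n => quality (ξ.convergent n)) atTop (𝓝 (1 / 3))) ∧
    (∀ t : ℝ, 1 / 3 ≤ t → t < 1 / 2 →
      dimH {ξ : ℝ | Irrational ξ ∧ M ξ = (t : EReal)} = ENNReal.ofReal ((1 - t) / (2 * t))) ∧
    (∀ t : ℝ, 0 < t →
      dimH {ξ : ℝ | Irrational ξ ∧ (t : EReal) ≤ M ξ} ≤ ENNReal.ofReal (G t)) ∧
    (∀ t : ℝ, 1 / 3 ≤ t → t ≤ 1 →
      ENNReal.ofReal ((1 - t) / (2 * t)) ≤ dimH {ξ : ℝ | Irrational ξ ∧ (t : EReal) ≤ M ξ}) := by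
  have hupper : ∀ t : ℝ, 0 < t →
      dimH {ξ : ℝ | Irrational ξ ∧ (t : EReal) ≤ M ξ} ≤ ENNReal.ofReal (G t) := by
    intro t ht
    rw [← F_eq_G ht]
    exact Q273.CJ.dim_big_le ht
  have hthird : (1 - (1 / 3 : ℝ)) / (2 * (1 / 3)) = 1 := by norm_num
  refine ⟨⟨fun ξ hξ => Q273.CJ.third_le_expo hξ, ?_⟩, ?_, hupper, ?_⟩
  · filter_upwards [Q273.CJ.ae_expo] with ξ hξ
    exact Q273.CJ.tendsto_of_expo hξ.1 hξ.2
  · intro t ht1 ht2
    refine le_antisymm ?_ ?_
    · have h1 : {ξ : ℝ | Irrational ξ ∧ M ξ = (t : EReal)} ⊆
          {ξ : ℝ | Irrational ξ ∧ (t : EReal) ≤ M ξ} := fun ξ hξ => ⟨hξ.1, hξ.2.ge⟩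
      refine (dimH_mono h1).trans ((hupper t (by linarith)).trans (le_of_eq ?_))
      unfold G
      rw [if_pos ht2.le]
    · rcases ht1.eq_or_lt with h | h
      · rw [← h, hthird, ENNReal.ofReal_one]
        exact Q273.CJ.dim_of_ae Q273.CJ.ae_expo
      · exact Q273.CJ.le_dim_level h ht2
  · intro t ht1 ht2
    rcases ht1.eq_or_lt with h | h
    · rw [← h, hthird, ENNReal.ofReal_one]
      exact Q273.CJ.dim_of_ae (Q273.CJ.ae_expo.mono fun ξ hξ => ⟨hξ.1, hξ.2.ge⟩)
    · rcases ht2.eq_or_lt with h2 | h2
      · rw [h2]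
        simp
      · exact Q273.CJ.le_dim_big h h2

end Pool.Agent.Results.MP_2ec8a3_nt.ConvergentSpectrum
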