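import Mathlib
import Pool.Agent.Q273.AD.AbcQ4

/-!
# The metric theory of Oesterlé's inequality

Every rational number `r = p / q ≠ 0, 1` gives the abc triple formed by `|p|`, `q` and `|p - q|`, with
largest member `c` and quality `log c / log rad(abc)`; every abc triple is of this form. An integral adelic
point `u = (ξ, η)` consists of a real number `ξ` and of a `p`-adic integer `η_p` for every prime `p`. For a
finite set `V` of primes let `m_V(r) = log max (1, 1 / |ξ - r|) + ∑_(p ∈ V) log max (1, 1 / |η_p - r|_p)`.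

The theorem describes, for almost every `u`, which exponents `M` are needed in Oesterlé's inequality
`c < rad(abc) ^ M` for the triples near `u`, with all limit points of the pairs (proximities, quality) in
the range `M ≤ 1 / 2` or `m_V > log c`; and it gives the Hausdorff dimensions of the sets of real numbers
with approximations of order `τ` by triples of quality at least `M`.
-/

set_option autoImplicit false

open MeasureTheory

namespace Pool.Agent.Results.MP_2ec8a3_nt.QualityLaw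

/-- the radical `rad(m)`: the product of the distinct primes dividing `m` -/
def rad (m : ℕ) : ℕ := ∏ p ∈ m.primeFactors, p

/-- the largest member `c` of the triple of `r = p / q`, formed by `|p|`, `q` and `|p - q|` -/
def c (r : ℚ) : ℕ := max (max r.num.natAbs r.den) (r.num - r.den).natAbs

/-- the product `abc` of the three members of the triple of `r = p / q` -/
def abc (r : ℚ) : ℕ := r.num.natAbs * r.den * (r.num - r.den).natAbs

/-- the quality `log c / log rad(abc)` of the triple -/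
noncomputable def quality (r : ℚ) : ℝ := Real.log (c r) / Real.log (rad (abc r))

/-- a continuous decreasing function of the exponent `M` -/
noncomputable def D (M : ℝ) : ℝ :=
  if 3 / 2 ≤ M then 4 / (7 * M)
  else if 1 ≤ M then (13 + 2 * M) / (28 * M)
  else if 2 / 3 ≤ M then 5 * (10 - M) / (84 * M)
  else if 9 / 16 ≤ M then (9 - M) / (15 * M)
  else if 1 / 2 ≤ M then 1
  else 1 / M - 1

/-- the product of the rings of `p`-adic integers over all primes `p`, with the product topology -/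
abbrev ZHat : Type := (p : Nat.Primes) → @PadicInt p.1 ⟨p.2⟩

/-- the proximity function at the infinite place: `log max (1, 1 / |ξ - r|)` -/
noncomputable def mInf (u : ℝ × ZHat) (r : ℚ) : ℝ := Real.log (max 1 |u.1 - (r : ℝ)|⁻¹)

/-- the proximity function at the prime `p`: `log max (1, 1 / |η_p - r|_p)` -/
noncomputable def mP (u : ℝ × ZHat) (p : Nat.Primes) (r : ℚ) : ℝ :=
  haveI : Fact p.1.Prime := ⟨p.2⟩
  Real.log (max 1 ‖((u.2 p : ℤ_[p.1]) : ℚ_[p.1]) - (r : ℚ_[p.1])‖⁻¹)

/-- the proximity function at the infinite place and at the primes in `V` -/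
noncomputable def m (V : Finset Nat.Primes) (u : ℝ × ZHat) (r : ℚ) : ℝ :=
  mInf u r + ∑ p ∈ V, mP u p r

/-- `(τ, σ, M)` is a limit point, for `c → ∞`, of the proximities divided by `log c` and of the
quality -/
def IsLimit (V : Finset Nat.Primes) (u : ℝ × ZHat) (τ : ℝ) (σ : Nat.Primes → ℝ) (M : ℝ) : Prop :=
  ∀ ε : ℝ, 0 < ε → ∀ B : ℝ, ∃ r : ℚ, r ≠ 0 ∧ r ≠ 1 ∧ B ≤ (c r : ℝ) ∧
    |mInf u r / Real.log (c r) - τ| ≤ ε ∧
    (∀ p ∈ V, |mP u p r / Real.log (c r) - σ p| ≤ ε) ∧ |quality r - M| ≤ ε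

/-- the real numbers with approximations `|ξ - r| ≤ c ^ (-τ + o(1))` by triples, `c → ∞`, of quality
at least `M - o(1)` -/
def Approximable (τ M : ℝ) : Set ℝ :=
  {ξ | ∀ ε : ℝ, 0 < ε → ∀ B : ℝ, ∃ r : ℚ, r ≠ 0 ∧ r ≠ 1 ∧ B ≤ (c r : ℝ) ∧
    |ξ - (r : ℝ)| ≤ (c r : ℝ) ^ (-(τ - ε)) ∧ M - ε ≤ quality r}

private lemma D_eq {M : ℝ} (hM : 0 < M) : D M = Q273.AD.F (1 / M) := by
  unfold D Q273.AD.F
  have e : ∀ a : ℝ, 0 < a → (1 / M ≤ a ↔ 1 / a ≤ M) := fun a ha => by
    rw [div_le_iff₀ hM, div_le_iff₀ ha, mul_comm]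
  have e1 : 1 / M ≤ 2 / 3 ↔ 3 / 2 ≤ M := by rw [e _ (by norm_num)]; norm_num
  have e2 : 1 / M ≤ 1 ↔ 1 ≤ M := by rw [e _ (by norm_num)]; norm_num
  have e3 : 1 / M ≤ 3 / 2 ↔ 2 / 3 ≤ M := by rw [e _ (by norm_num)]; norm_num
  have e4 : 1 / M ≤ 16 / 9 ↔ 9 / 16 ≤ M := by rw [e _ (by norm_num)]; norm_num
  have e5 : 1 / M ≤ 2 ↔ 1 / 2 ≤ M := by rw [e _ (by norm_num)]
  rw [if_congr e1 rfl rfl, if_congr e2 rfl rfl, if_congr e3 rfl rfl, if_congr e4 rfl rfl,
    if_congr e5 rfl rfl]
  split_ifs <;> field_simp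

private lemma D_of_le {M : ℝ} (h : M ≤ 1 / 2) : D M = 1 / M - 1 := by
  unfold D
  rw [if_neg (by linarith), if_neg (by linarith), if_neg (by linarith), if_neg (by linarith)]
  split_ifs with h1
  · have : M = 1 / 2 := le_antisymm h h1
    rw [this]
    norm_num
  · rfl

private lemma F_lip {a b : ℝ} (h : a ≤ b) :
    Q273.AD.F a ≤ Q273.AD.F b ∧ Q273.AD.F b - Q273.AD.F a ≤ b - a := by
  unfold Q273.AD.F
  constructor
  · split_ifs <;> linarith
  · split_ifs <;> linarith

private lemma F_cont : Continuous Q273.AD.F := by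
  have h : LipschitzWith 1 Q273.AD.F := by
    refine LipschitzWith.of_dist_le_mul fun x y => ?_
    rw [NNReal.coe_one, one_mul, Real.dist_eq, Real.dist_eq, abs_le]
    rcases le_total x y with h | h
    · obtain ⟨h1, h2⟩ := F_lip h
      rw [abs_of_nonpos (sub_nonpos.2 h)]
      constructor <;> linarith
    · obtain ⟨h1, h2⟩ := F_lip h
      rw [abs_of_nonneg (sub_nonneg.2 h)]
      constructor <;> linarith
  exact h.continuous

private lemma one_le_c (r : ℚ) : (1 : ℝ) ≤ c r := Q273.AD.one_le_cc r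

private lemma size {r : ℚ} (h0 : r ≠ 0) (h1 : r ≠ 1) :
    0 < Real.log (rad (abc r)) ∧ Real.log (rad (abc r)) ≤ 3 * Real.log (c r) :=
  Q273.AD.rho_pos h0 h1

private lemma two_le_rad {r : ℚ} (h0 : r ≠ 0) (h1 : r ≠ 1) : (2 : ℝ) ≤ rad (abc r) := by
  exact_mod_cast Q273.AD.two_le_Rd (Q273.AD.abc_ne_one h1) (Q273.AD.abc_pos h0 h1).ne'

private lemma log_rad_abc (r : ℚ) :
    Real.log (rad (abc r)) = ∑ i, Real.log (rad (Q273.AD.mem3 r i)) :=
  Q273.AD.logRd_abc r

private lemma log_c_pos {r : ℚ} (h0 : r ≠ 0) (h1 : r ≠ 1) : 0 < Real.log (c r) := by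
  obtain ⟨h2, h3⟩ := size h0 h1
  linarith

private lemma third_le {r : ℚ} (h0 : r ≠ 0) (h1 : r ≠ 1) : 1 / 3 ≤ quality r := by
  obtain ⟨h2, h3⟩ := size h0 h1
  unfold quality
  rw [div_le_div_iff₀ (by norm_num) h2]
  linarith

/-- triples of quality at least `M` have small radicals -/
private lemma rad_le {r : ℚ} (h0 : r ≠ 0) (h1 : r ≠ 1) {M : ℝ} (hM : 0 < M) (h : M ≤ quality r) :
    Real.log (rad (abc r)) ≤ 1 / M * Real.log (c r) := by
  obtain ⟨h2, h3⟩ := size h0 h1
  unfold quality at h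
  rw [le_div_iff₀ h2] at h
  rw [one_div, le_inv_mul_iff₀ hM]
  exact h

/-- the proximity law in terms of the quality, and its sharp form -/
private lemma limit_imp {V : Finset Nat.Primes} {u : ℝ × ZHat} {τ : ℝ} {σ : Nat.Primes → ℝ}
    {M : ℝ}
    (hlaw : ∀ ε : ℝ, 0 < ε → ∃ C : ℝ, ∀ r : ℚ, r ≠ 0 → r ≠ 1 →
      ((1 + ε) * Real.log (c r) ≤ m V u r ∨ 2 * Real.log (c r) ≤ Real.log (rad (abc r))) →
      Real.log (c r) + m V u r ≤ Real.log (rad (abc r)) + ε * Real.log (c r) + C)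
    (hreg : M ≤ 1 / 2 ∨ 1 < τ + ∑ p ∈ V, σ p) (h : IsLimit V u τ σ M) :
    0 ≤ τ ∧ (∀ p ∈ V, 0 ≤ σ p) ∧ 1 / 3 ≤ M ∧ M * (1 + τ + ∑ p ∈ V, σ p) ≤ 1 := by
  have hnn : ∀ (A L t ε : ℝ), 0 ≤ A → 0 < L → |A / L - t| ≤ ε → 0 ≤ t + ε := by
    intro A L t ε hA hL h1
    rw [abs_le] at h1
    have := div_nonneg hA hL.le
    linarith [h1.2]
  have hM3 : 1 / 3 ≤ M := by
    refine le_of_forall_pos_le_add fun ε hε => ?_
    obtain ⟨r, r0, r1, _, _, _, h3⟩ := h ε hε 1
    rw [abs_le] at h3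
    have := third_le r0 r1
    linarith [h3.2]
  refine ⟨?_, fun p hp => ?_, hM3, ?_⟩
  · refine le_of_forall_pos_le_add fun ε hε => ?_
    obtain ⟨r, r0, r1, _, h1, _, _⟩ := h ε hε 1
    exact hnn _ _ _ _ (Real.log_nonneg (le_max_left _ _)) (log_c_pos r0 r1) h1
  · refine le_of_forall_pos_le_add fun ε hε => ?_
    obtain ⟨r, r0, r1, _, _, h1, _⟩ := h ε hε 1
    exact hnn _ _ _ _ (Real.log_nonneg (le_max_left _ _)) (log_c_pos r0 r1) (h1 p hp)
  · by_contra hcon
    push Not at hcon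
    have hM0 : 0 < M := by linarith
    set T0 : ℝ := τ + ∑ p ∈ V, σ p with hT0
    have hcon' : 1 < M * (1 + T0) := by rw [hT0, ← add_assoc]; exact hcon
    have hT1 : 1 < T0 := by
      rcases hreg with h1 | h1
      · by_contra h2
        push Not at h2
        nlinarith
      · exact h1
    set n : ℝ := 1 + (V.card : ℝ) with hn
    have hn0 : 0 ≤ n := by positivity
    set g : ℝ := M * (1 + T0) - 1 with hg
    have hg0 : 0 < g := by linarith
    set W : ℝ := 1 + T0 + (n + 1) * M with hW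
    have hW0 : 0 < W := by positivity
    set e : ℝ := min (min (g / (2 * W)) ((T0 - 1) / (n + 1))) (M / 2) with he
    have hepos : 0 < e := lt_min (lt_min (by positivity) (div_pos (by linarith) (by linarith)))
      (by positivity)
    have he1 : e * W ≤ g / 2 := by
      have h1 : e ≤ g / (2 * W) := (min_le_left _ _).trans (min_le_left _ _)
      rw [le_div_iff₀ (by positivity)] at h1
      linarith
    have he2 : e * (n + 1) ≤ T0 - 1 := by
      have h1 : e ≤ (T0 - 1) / (n + 1) := (min_le_left _ _).trans (min_le_right _ _)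
      rwa [le_div_iff₀ (by positivity)] at h1
    have he3 : e ≤ M / 2 := min_le_right _ _
    obtain ⟨C, hC⟩ := hlaw e hepos
    obtain ⟨r, r0, r1, hB, h1, h2, h3⟩ := h e hepos (Real.exp (2 * M * |C| / g + 1))
    have hL := log_c_pos r0 r1
    set L : ℝ := Real.log (c r) with hLd
    have hB' : 2 * M * |C| / g + 1 ≤ L := by
      rw [hLd, Real.le_log_iff_exp_le (lt_of_lt_of_le one_pos (one_le_c r))]
      exact hB
    have hpr : (T0 - n * e) * L ≤ m V u r := by
      have h7 : ∑ v ∈ V, (σ v - e) * L ≤ ∑ v ∈ V, mP u v r :=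
        Finset.sum_le_sum fun v hv => by
          have h8 := h2 v hv
          rw [abs_le] at h8
          rw [← le_div_iff₀ hL]
          linarith [h8.1]
      rw [← Finset.sum_mul, Finset.sum_sub_distrib, Finset.sum_const, nsmul_eq_mul] at h7
      have h9 : (τ - e) * L ≤ mInf u r := by
        rw [abs_le] at h1
        rw [← le_div_iff₀ hL]
        linarith [h1.1]
      unfold m
      rw [hT0, hn]
      linarith
    have hR : (M - e) * Real.log (rad (abc r)) ≤ L := by
      have h6 : M - e ≤ quality r := by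
        rw [abs_le] at h3
        linarith [h3.1]
      obtain ⟨s1, _⟩ := size r0 r1
      unfold quality at h6
      rwa [le_div_iff₀ s1] at h6
    have h6 := hC r r0 r1 (Or.inl
      ((mul_le_mul_of_nonneg_right (by linarith) hL.le).trans hpr))
    -- the contradiction
    have hMe : 0 < M - e := by linarith
    have h10 : (M - e) * (L + (T0 - n * e) * L) ≤ L + (M - e) * (e * L) + (M - e) * C := by
      have h11 : L + (T0 - n * e) * L ≤ Real.log (rad (abc r)) + e * L + C := by linarith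
      have h12 := mul_le_mul_of_nonneg_left h11 hMe.le
      nlinarith
    have h13 : g / 2 * L ≤ (M - e) * C := by
      have h14 : g / 2 ≤ (M - e) * (1 + T0 - (n + 1) * e) - 1 := by
        have h15 : (M - e) * (1 + T0 - (n + 1) * e) - 1 =
            g - e * W + (n + 1) * e ^ 2 := by rw [hg, hW]; ring
        rw [h15]
        have : 0 ≤ (n + 1) * e ^ 2 := by positivity
        linarith
      have h16 := mul_le_mul_of_nonneg_right h14 hL.le
      nlinarith
    have h17 : (M - e) * C ≤ M * |C| := by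
      have h18 : (M - e) * C ≤ (M - e) * |C| := mul_le_mul_of_nonneg_left (le_abs_self C) hMe.le
      have h19 : (M - e) * |C| ≤ M * |C| :=
        mul_le_mul_of_nonneg_right (by linarith) (abs_nonneg C)
      linarith
    have h20 : 2 * M * |C| / g * g = 2 * M * |C| := div_mul_cancel₀ _ hg0.ne'
    nlinarith

/-- from the radicals of the members to the quality -/
private lemma quality_near {r : ℚ} (h0 : r ≠ 0) (h1 : r ≠ 1) {M e : ℝ} (hM : 0 < M)
    (hM2 : M ≤ 1 / 2) (he : 3 * e ≤ 1)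
    (h : |Real.log (rad (abc r)) - 1 / M * Real.log (c r)| ≤ 3 * e * Real.log (c r)) :
    |quality r - M| ≤ 3 * e := by
  have hL := log_c_pos h0 h1
  obtain ⟨hR, _⟩ := size h0 h1
  set L : ℝ := Real.log (c r) with hLd
  set R : ℝ := Real.log (rad (abc r)) with hRd
  have he0 : 0 ≤ 3 * e := by
    have := (abs_nonneg _).trans h
    by_contra hcon
    push Not at hcon
    nlinarith
  have h2 : 2 ≤ 1 / M := by
    rw [le_div_iff₀ hM]
    linarith
  have h3 : L ≤ R := by
    rw [abs_le] at h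
    nlinarith [h.1]
  have h4 : quality r - M = -(M * (R - 1 / M * L)) / R := by
    unfold quality
    rw [← hLd, ← hRd]
    field_simp
    ring
  rw [h4, abs_div, abs_neg, abs_mul, abs_of_pos hM, abs_of_pos hR, div_le_iff₀ hR]
  have h5 : M * |R - 1 / M * L| ≤ 1 * (3 * e * L) :=
    mul_le_mul (by linarith) h (abs_nonneg _) one_pos.le
  have h6 : 3 * e * L ≤ 3 * e * R := mul_le_mul_of_nonneg_left h3 he0
  linarith

private lemma mul_iff {A t L ε : ℝ} (hL : 0 < L) :
    |A - t * L| ≤ ε * L ↔ |A / L - t| ≤ ε := by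
  rw [div_sub' hL.ne', abs_div, abs_of_pos hL, div_le_iff₀ hL, mul_comm L]

private lemma limit_of {V : Finset Nat.Primes} {u : ℝ × ZHat} {τ : ℝ} {σ : Nat.Primes → ℝ}
    {M : ℝ} (hM : 0 < M) (hM2 : M ≤ 1 / 2)
    (h : Q273.AD.LimQ V (fun y : ℚ => Real.log (max 1 |u.1 - (y : ℝ)|⁻¹))
      (fun p y => Q273.AD.mp u.2 p y) τ σ (fun _ => 1 / (3 * M))) : IsLimit V u τ σ M := by
  intro ε hε B
  set e : ℝ := min (ε / 3) (1 / 3) with he
  have he0 : 0 < e := lt_min (by positivity) (by norm_num)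
  have he1 : 3 * e ≤ ε := by
    have : e ≤ ε / 3 := min_le_left _ _
    linarith
  have he2 : 3 * e ≤ 1 := by
    have : e ≤ 1 / 3 := min_le_right _ _
    linarith
  obtain ⟨r, r0, r1, hB, h1, h2, h3⟩ := h e he0 (Real.log (max B 1))
  have hL := log_c_pos r0 r1
  refine ⟨r, r0, r1, ?_, ((mul_iff hL).1 h1).trans (by linarith),
    fun p hp => ((mul_iff hL).1 (h2 p hp)).trans (by linarith),
    (quality_near r0 r1 hM hM2 he2 ?_).trans he1⟩
  · have h6 := (Real.log_le_log_iff (lt_of_lt_of_le one_pos (le_max_right _ _))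
      (lt_of_lt_of_le one_pos (one_le_c r))).1 hB
    exact (le_max_left _ _).trans h6
  · have h4 : ∀ i, |Real.log (rad (Q273.AD.mem3 r i)) - 1 / (3 * M) * Real.log (c r)| ≤
        e * Real.log (c r) := h3
    have g0 := abs_le.1 (h4 0)
    have g1 := abs_le.1 (h4 1)
    have g2 := abs_le.1 (h4 2)
    have e1 : 1 / M * Real.log (c r) = 3 * (1 / (3 * M) * Real.log (c r)) := by
      field_simp
    rw [log_rad_abc, Fin.sum_univ_three, e1, abs_le]
    constructor
    · linarith [g0.1, g1.1, g2.1]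
    · linarith [g0.2, g1.2, g2.2]

/-- the exact dimension, lower bound -/
private lemma dim_lower {τ M : ℝ} (hτ : 0 < τ) (hM : 1 / 3 ≤ M) (hM2 : M ≤ 1 / 2) :
    ENNReal.ofReal (min 1 ((1 / M - 1) / τ)) ≤ dimH (Approximable τ M) := by
  have hM0 : 0 < M := by linarith
  have h3 : 1 / M ≤ 3 := by
    rw [div_le_iff₀ hM0]
    linarith
  have h2 : 2 ≤ 1 / M := by
    rw [le_div_iff₀ hM0]
    linarith
  have e3 : 1 / (3 * M) = 1 / M / 3 := by
    field_simp
  have hs : ∑ i : Fin 3, (1 - (fun _ : Fin 3 => 1 / (3 * M)) i) = 3 - 1 / M := by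
    rw [Fin.sum_univ_three, e3]
    ring
  -- a larger order
  have key : ∀ τ' : ℝ, τ ≤ τ' → 1 / M - 1 ≤ τ' →
      ENNReal.ofReal ((1 / M - 1) / τ') ≤ dimH (Approximable τ M) := by
    intro τ' h4 h5
    have h6 := Q273.AD.dim_AppR (τ := τ') (θ := fun _ => 1 / (3 * M)) (hτ.trans_le h4)
      (fun i => by rw [e3]; linarith) (fun i => by rw [e3]; linarith) (by rw [hs]; linarith)
      (by rw [hs]; linarith)
    rw [hs] at h6
    have e4 : (2 - (3 - 1 / M)) / τ' = (1 / M - 1) / τ' := by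
      congr 1
      ring
    rw [← e4, ← h6]
    refine dimH_mono fun ξ hξ => ?_
    intro ε hε B
    set e : ℝ := min (ε / 3) (1 / 3) with he
    have he0 : 0 < e := lt_min (by positivity) (by norm_num)
    have he1 : 3 * e ≤ ε := by
      have : e ≤ ε / 3 := min_le_left _ _
      linarith
    obtain ⟨r, r0, r1, hB, g1, g2⟩ := hξ e he0 (Real.log (max B 1))
    have hL := log_c_pos r0 r1
    obtain ⟨hR, _⟩ := size r0 r1
    refine ⟨r, r0, r1, ?_, g1.trans ?_, ?_⟩
    · have h6 := (Real.log_le_log_iff (lt_of_lt_of_le one_pos (le_max_right _ _))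
        (lt_of_lt_of_le one_pos (one_le_c r))).1 hB
      exact (le_max_left _ _).trans h6
    · rw [Real.rpow_def_of_pos (lt_of_lt_of_le one_pos (one_le_c r))]
      refine Real.exp_le_exp.2 ?_
      show -((τ' - e) * Real.log (c r)) ≤ Real.log (c r) * -(τ - ε)
      have h7 : (τ - ε) * Real.log (c r) ≤ (τ' - e) * Real.log (c r) :=
        mul_le_mul_of_nonneg_right (by linarith) hL.le
      linarith
    · have h8 : Real.log (rad (abc r)) ≤ (1 / M + 3 * e) * Real.log (c r) := by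
        rw [log_rad_abc, Fin.sum_univ_three]
        have g20 : Real.log (rad (Q273.AD.mem3 r 0)) ≤ (1 / (3 * M) + e) * Real.log (c r) := g2 0
        have g21 : Real.log (rad (Q273.AD.mem3 r 1)) ≤ (1 / (3 * M) + e) * Real.log (c r) := g2 1
        have g22 : Real.log (rad (Q273.AD.mem3 r 2)) ≤ (1 / (3 * M) + e) * Real.log (c r) := g2 2
        rw [e3] at g20 g21 g22
        linarith
      unfold quality
      rw [le_div_iff₀ hR]
      rcases le_or_gt (M - ε) 0 with h9 | h9
      · nlinarith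
      · have h10 := mul_le_mul_of_nonneg_left h8 h9.le
        have h11 : (M - ε) * (1 / M + 3 * e) ≤ 1 := by
          have h12 : (M - ε) * (1 / M + 3 * e) = 1 - ε * (1 / M) + 3 * e * (M - ε) := by
            field_simp
          rw [h12]
          nlinarith
        nlinarith
  rcases le_or_gt (1 / M - 1) τ with h | h
  · rw [min_eq_right ((div_le_one hτ).2 h)]
    exact key τ le_rfl h
  · rw [min_eq_left ((one_le_div hτ).2 h.le)]
    have h5 := key (1 / M - 1) h.le le_rfl
    rwa [div_self (hτ.trans h).ne'] at h5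

/-- the upper bound for the dimension -/
private lemma dim_upper {τ M : ℝ} (hτ : 0 < τ) (hM : 0 < M) :
    dimH (Approximable τ M) ≤ ENNReal.ofReal (D M / τ) := by
  rw [D_eq hM]
  have one : ∀ e : ℝ, 0 < e → e < τ → e < M →
      dimH (Approximable τ M) ≤ ENNReal.ofReal (Q273.AD.F (1 / (M - e)) / (τ - e)) := by
    intro e he he1 he2
    have hMe : 0 < M - e := by linarith
    refine (dimH_mono fun ξ hξ => ?_).trans
      (Q273.AD.dim_SmR (lam := 1 / (M - e)) (τ := τ - e) (by positivity) (by linarith))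
    refine ⟨1, fun B => ?_⟩
    obtain ⟨r, r0, r1, hB, g1, g2⟩ := hξ e he (Real.exp B)
    have hc0 : (0 : ℝ) < c r := lt_of_lt_of_le one_pos (one_le_c r)
    refine ⟨r, r0, r1, ?_, ?_, ?_⟩
    · show B ≤ Real.log (c r)
      rw [Real.le_log_iff_exp_le hc0]
      exact hB
    · rw [one_mul]
      exact g1
    · rw [one_mul]
      have h1 := rad_le r0 r1 hMe g2
      have hR : (0 : ℝ) < rad (abc r) := by exact_mod_cast Q273.AD.Rd_pos _
      show (rad (abc r) : ℝ) ≤ (c r : ℝ) ^ (1 / (M - e))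
      rw [← Real.log_le_log_iff hR (Real.rpow_pos_of_pos hc0 _), Real.log_rpow hc0]
      exact h1
  have hcont : Filter.Tendsto (fun e : ℝ => ENNReal.ofReal (Q273.AD.F (1 / (M - e)) / (τ - e)))
      (nhdsWithin 0 (Set.Ioi 0)) (nhds (ENNReal.ofReal (Q273.AD.F (1 / M) / τ))) := by
    apply ENNReal.tendsto_ofReal
    have h1 : ContinuousAt (fun e : ℝ => Q273.AD.F (1 / (M - e)) / (τ - e)) 0 := by
      apply ContinuousAt.div
      · apply ContinuousAt.comp (g := Q273.AD.F)
        · exact F_cont.continuousAt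
        · exact ContinuousAt.div continuousAt_const
            (continuousAt_const.sub continuousAt_id) (by simpa using hM.ne')
      · exact continuousAt_const.sub continuousAt_id
      · simpa using hτ.ne'
    have h2 := h1.tendsto
    simp only [sub_zero] at h2
    exact h2.mono_left nhdsWithin_le_nhds
  refine ge_of_tendsto hcont ?_
  have h3 : Set.Ioo (0 : ℝ) (min τ M) ∈ nhdsWithin (0 : ℝ) (Set.Ioi 0) :=
    Ioo_mem_nhdsGT (lt_min hτ hM)
  filter_upwards [h3] with e he
  exact one e he.1 (he.2.trans_le (min_le_left _ _)) (he.2.trans_le (min_le_right _ _))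

private lemma D_nonneg_two_add (k : ℕ) : D ((k : ℝ) + 2) = 4 / (7 * ((k : ℝ) + 2)) := by
  unfold D
  have : (0 : ℝ) ≤ k := Nat.cast_nonneg k
  rw [if_pos (by linarith)]

private lemma dim_zero :
    ∃ E : Set ℝ, dimH E = 0 ∧ ∀ ξ : ℝ, ξ ∉ E → ∀ τ A : ℝ, 0 < τ → ∃ M : ℝ,
      ∀ r : ℚ, r ≠ 0 → r ≠ 1 → |ξ - r| ≤ A * (c r : ℝ) ^ (-τ) →
        (c r : ℝ) < (rad (abc r) : ℝ) ^ M := by
  refine ⟨⋃ n : ℕ, ⋂ k : ℕ, Approximable (1 / ((n : ℝ) + 1)) ((k : ℝ) + 2), ?_,
    fun ξ hξ τ A hτ => ?_⟩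
  · rw [dimH_iUnion]
    simp only [ENNReal.iSup_eq_zero]
    intro n
    have h1 : ∀ k : ℕ, dimH (⋂ k : ℕ, Approximable (1 / ((n : ℝ) + 1)) ((k : ℝ) + 2)) ≤
        ENNReal.ofReal (4 / (7 * ((k : ℝ) + 2)) * ((n : ℝ) + 1)) := fun k => by
      refine (dimH_mono (Set.iInter_subset _ k)).trans
        ((dim_upper (by positivity) (by positivity)).trans (le_of_eq ?_))
      rw [D_nonneg_two_add, div_div_eq_mul_div, div_one]
    have h2 : Filter.Tendsto (fun k : ℕ =>
        ENNReal.ofReal (4 / (7 * ((k : ℝ) + 2)) * ((n : ℝ) + 1))) Filter.atTop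
        (nhds (ENNReal.ofReal 0)) := by
      apply ENNReal.tendsto_ofReal
      have h3 : Filter.Tendsto (fun k : ℕ => (k : ℝ) + 2) Filter.atTop Filter.atTop :=
        Filter.tendsto_atTop_add_const_right _ _ tendsto_natCast_atTop_atTop
      have h4 := (h3.const_mul_atTop (by norm_num : (0 : ℝ) < 7)).const_div_atTop 4
      simpa using h4.mul_const ((n : ℝ) + 1)
    rw [ENNReal.ofReal_zero] at h2
    exact le_antisymm (ge_of_tendsto' h2 h1) zero_le
  · obtain ⟨n, hn⟩ := exists_nat_one_div_lt hτ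
    have hξ' : ξ ∉ ⋂ k : ℕ, Approximable (1 / ((n : ℝ) + 1)) ((k : ℝ) + 2) :=
      fun h => hξ (Set.mem_iUnion.2 ⟨n, h⟩)
    rw [Set.mem_iInter] at hξ'
    push Not at hξ'
    obtain ⟨k, hk⟩ := hξ'
    have hk' : ∃ ε : ℝ, 0 < ε ∧ ∃ B : ℝ, ∀ r : ℚ, r ≠ 0 → r ≠ 1 → B ≤ (c r : ℝ) →
        |ξ - (r : ℝ)| ≤ (c r : ℝ) ^ (-(1 / ((n : ℝ) + 1) - ε)) →
        quality r < (k : ℝ) + 2 - ε := by
      by_contra hcon
      push Not at hcon
      exact hk fun ε hε B => by
        obtain ⟨r, a1, a2, a3, a4, a5⟩ := hcon ε hε B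
        exact ⟨r, a1, a2, a3, a4, a5⟩
    obtain ⟨ε, hε, B, hB⟩ := hk'
    have hk0 : (0 : ℝ) ≤ k := Nat.cast_nonneg k
    -- the constant
    set B1 : ℝ := Real.exp (Real.log (max A 1) / ε) with hB1
    obtain ⟨j, hj⟩ := pow_unbounded_of_one_lt (max B B1) (one_lt_two : (1 : ℝ) < 2)
    refine ⟨max ((k : ℝ) + 2) j, fun r hr0 hr1 hdist => ?_⟩
    have h2r := two_le_rad hr0 hr1
    have hc1 := one_le_c r
    have hc0 : (0 : ℝ) < c r := lt_of_lt_of_le one_pos hc1
    have hL := log_c_pos hr0 hr1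
    rcases le_or_gt (max B B1) (c r : ℝ) with h | h
    · have h3 : |ξ - (r : ℝ)| ≤ (c r : ℝ) ^ (-(1 / ((n : ℝ) + 1) - ε)) := by
        refine hdist.trans ?_
        have h4 : A ≤ (c r : ℝ) ^ ε := by
          have h5 : Real.log (max A 1) ≤ ε * Real.log (c r) := by
            have h6 : B1 ≤ (c r : ℝ) := (le_max_right _ _).trans h
            rw [hB1, ← Real.le_log_iff_exp_le hc0, div_le_iff₀ hε] at h6
            linarith
          have h7 : (0 : ℝ) < max A 1 := lt_of_lt_of_le one_pos (le_max_right _ _)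
          rw [← Real.log_rpow hc0, Real.log_le_log_iff h7 (Real.rpow_pos_of_pos hc0 _)] at h5
          exact (le_max_left _ _).trans h5
        calc A * (c r : ℝ) ^ (-τ) ≤ (c r : ℝ) ^ ε * (c r : ℝ) ^ (-τ) :=
              mul_le_mul_of_nonneg_right h4 (by positivity)
          _ = (c r : ℝ) ^ (ε + -τ) := (Real.rpow_add hc0 _ _).symm
          _ ≤ _ := Real.rpow_le_rpow_of_exponent_le hc1 (by linarith)
      have h8 := hB r hr0 hr1 ((le_max_left _ _).trans h) h3
      obtain ⟨hR, _⟩ := size hr0 hr1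
      unfold quality at h8
      rw [div_lt_iff₀ hR] at h8
      have h9 : Real.log (c r) < max ((k : ℝ) + 2) j * Real.log (rad (abc r)) :=
        h8.trans_le (mul_le_mul_of_nonneg_right ((by linarith : (k : ℝ) + 2 - ε ≤ (k : ℝ) + 2).trans
          (le_max_left _ _)) hR.le)
      rw [← Real.log_rpow (by linarith)] at h9
      exact (Real.log_lt_log_iff hc0 (by positivity)).1 h9
    · calc (c r : ℝ) < 2 ^ j := h.trans hj
        _ = (2 : ℝ) ^ (j : ℝ) := (Real.rpow_natCast 2 j).symm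
        _ ≤ (rad (abc r) : ℝ) ^ (j : ℝ) :=
            Real.rpow_le_rpow (by norm_num) h2r (Nat.cast_nonneg _)
        _ ≤ _ := Real.rpow_le_rpow_of_exponent_le (by linarith) (le_max_right _ _)

/-- finitely many exceptions to Oesterlé's inequality with the exponent `M` -/
private lemma finite_exceptions {V : Finset Nat.Primes} {u : ℝ × ZHat}
    (hlaw : ∀ ε : ℝ, 0 < ε → ∃ C : ℝ, ∀ r : ℚ, r ≠ 0 → r ≠ 1 →
      m V u r ≤ (Q273.AD.F (Real.log (rad (abc r)) / Real.log (c r)) + ε) * Real.log (c r) + C)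
    {δ M : ℝ} (hM : 0 < M) (hD : D M < δ) :
    {r : ℚ | r ≠ 0 ∧ r ≠ 1 ∧ δ * Real.log (c r) ≤ m V u r ∧
      ¬ (c r : ℝ) < (rad (abc r) : ℝ) ^ M}.Finite := by
  rw [D_eq hM] at hD
  obtain ⟨C, hC⟩ := hlaw ((δ - Q273.AD.F (1 / M)) / 2) (by linarith)
  refine Set.Finite.subset (Q273.AD.cc_finite (Real.exp (2 * |C| / (δ - Q273.AD.F (1 / M))))) ?_
  rintro r ⟨hr0, hr1, hr2, hr3⟩
  rw [not_lt] at hr3
  have hL := log_c_pos hr0 hr1
  have hc0 : (0 : ℝ) < c r := lt_of_lt_of_le one_pos (one_le_c r)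
  have hR : (0 : ℝ) < rad (abc r) := by linarith [two_le_rad hr0 hr1]
  have h4 : M * Real.log (rad (abc r)) ≤ Real.log (c r) := by
    have h5 := Real.log_le_log (Real.rpow_pos_of_pos hR M) hr3
    rwa [Real.log_rpow hR] at h5
  have h6 : Real.log (rad (abc r)) / Real.log (c r) ≤ 1 / M := by
    rw [div_le_div_iff₀ hL hM]
    linarith
  have h7 := (F_lip h6).1
  have h8 := hC r hr0 hr1
  have h9 : (δ - Q273.AD.F (1 / M)) / 2 * Real.log (c r) ≤ C := by
    have h10 := mul_le_mul_of_nonneg_right h7 hL.le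
    nlinarith
  show (c r : ℝ) ≤ Real.exp (2 * |C| / (δ - Q273.AD.F (1 / M)))
  rw [← Real.log_le_iff_le_exp hc0, le_div_iff₀ (by linarith)]
  have h11 := le_abs_self C
  nlinarith

/-- **The metric theory of Oesterlé's inequality.** A rational number `r = p / q ≠ 0, 1` gives the abc
triple formed by `|p|`, `q`, `|p - q|`, with largest member `c r`, and quality
`log c / log rad(abc)`.

Let `μ` be a finite translation invariant Borel measure on the compact group `ZHat` (a multiple of Haar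
measure). For almost every `u = (ξ, η)` with respect to the product of Lebesgue measure and `μ`, for all
finite sets `V` of primes:

1. for all `δ` and all `M > 0` with `D(M) < δ` the inequality `c < rad(abc) ^ M` holds for all but
   finitely many of the triples with `m_V ≥ δ log c`;
2. for `M ≤ 1 / 2` or `τ + ∑ σ_p > 1`, the vector `(τ, σ, M)` is a limit point, for `c → ∞`, of the
   proximities divided by `log c` and of the quality if and only if `τ ≥ 0`, `σ_p ≥ 0` and
   `1 / 3 ≤ M ≤ 1 / (1 + τ + ∑ σ_p)`.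

Let `τ > 0` and let `W(τ, M)` be the set of the real numbers with approximations of order `τ` by triples
of quality at least `M - o(1)`, `c → ∞`.

3. For `1 / 3 ≤ M ≤ 1 / 2` the Hausdorff dimension of `W(τ, M)` is `min (1, (1 / M - 1) / τ)`.
4. For all `M > 0` it is at most `D(M) / τ`.
5. Outside a set of real numbers `ξ` of Hausdorff dimension zero, for all `τ > 0` and `A` there is an `M`
   with `c < rad(abc) ^ M` for all triples with `|ξ - r| ≤ A c ^ (-τ)`. -/
theorem result [MeasurableSpace ZHat] [BorelSpace ZHat] (μ : Measure ZHat) [IsFiniteMeasure μ]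
    [μ.IsAddLeftInvariant] :
    (∀ᵐ u : ℝ × ZHat ∂(volume.prod μ), ∀ V : Finset Nat.Primes,
      (∀ δ M : ℝ, 0 < M → D M < δ →
        {r : ℚ | r ≠ 0 ∧ r ≠ 1 ∧ δ * Real.log (c r) ≤ m V u r ∧
          ¬ (c r : ℝ) < (rad (abc r) : ℝ) ^ M}.Finite) ∧
      ∀ (τ : ℝ) (σ : Nat.Primes → ℝ) (M : ℝ), (M ≤ 1 / 2 ∨ 1 < τ + ∑ p ∈ V, σ p) →
        (IsLimit V u τ σ M ↔ 0 ≤ τ ∧ (∀ p ∈ V, 0 ≤ σ p) ∧ 1 / 3 ≤ M ∧
          M * (1 + τ + ∑ p ∈ V, σ p) ≤ 1)) ∧
    (∀ τ M : ℝ, 0 < τ → 1 / 3 ≤ M → M ≤ 1 / 2 →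
      dimH (Approximable τ M) = ENNReal.ofReal (min 1 ((1 / M - 1) / τ))) ∧
    (∀ τ M : ℝ, 0 < τ → 0 < M → dimH (Approximable τ M) ≤ ENNReal.ofReal (D M / τ)) ∧
    ∃ E : Set ℝ, dimH E = 0 ∧ ∀ ξ : ℝ, ξ ∉ E → ∀ τ A : ℝ, 0 < τ → ∃ M : ℝ,
      ∀ r : ℚ, r ≠ 0 → r ≠ 1 → |ξ - r| ≤ A * (c r : ℝ) ^ (-τ) →
        (c r : ℝ) < (rad (abc r) : ℝ) ^ M := by
  refine ⟨?_, ?_, fun τ M hτ hM => dim_upper hτ hM, dim_zero⟩
  · filter_upwards [Q273.AD.allQ2 Pool.Agent.Q225.AD.cnvq Pool.Agent.Q177.AD.trq μ] with u hu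
    intro V
    obtain ⟨h1, h2, h3⟩ := hu V
    refine ⟨fun δ M hM hD => finite_exceptions (fun ε hε => h1 ε hε) hM hD,
      fun τ σ M hreg => ⟨fun h => limit_imp (fun ε hε => h2 ε hε) hreg h, ?_⟩⟩
    rintro ⟨hτ, hσ, hM3, hM1⟩
    have hM0 : 0 < M := by linarith
    have hM2 : M ≤ 1 / 2 := by
      rcases hreg with h | h
      · exact h
      · have h4 : 1 < τ + ∑ p ∈ V, σ p := h
        nlinarith
    have e3 : 1 / (3 * M) = 1 / M / 3 := by
      field_simp
    have k3 : 1 / M ≤ 3 := by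
      rw [div_le_iff₀ hM0]
      linarith
    have k2 : 2 ≤ 1 / M := by
      rw [le_div_iff₀ hM0]
      linarith
    have k1 : 1 + τ + ∑ p ∈ V, σ p ≤ 1 / M := by
      rw [le_div_iff₀ hM0]
      linarith
    refine limit_of hM0 hM2 ((h3 τ σ (fun _ => 1 / (3 * M)) (Or.inl ?_)).2
      ⟨hτ, hσ, fun i => ⟨by rw [e3]; linarith, by rw [e3]; linarith⟩, ?_⟩)
    · rw [Fin.sum_univ_three, e3]
      linarith
    · rw [Fin.sum_univ_three, e3]
      linarith
  · intro τ M hτ hM hM2
    have hM0 : 0 < M := by linarith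
    refine le_antisymm ?_ (dim_lower hτ hM hM2)
    have h1 := dim_upper (τ := τ) (M := M) hτ hM0
    rw [D_of_le hM2] at h1
    rcases le_total ((1 / M - 1) / τ) 1 with h | h
    · rw [min_eq_right h]
      exact h1
    · rw [min_eq_left h]
      refine (dimH_mono (Set.subset_univ _)).trans (le_of_eq ?_)
      rw [Real.dimH_univ, ENNReal.ofReal_one]

end Pool.Agent.Results.MP_2ec8a3_nt.QualityLaw
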