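import Mathlib
import Pool.Agent.Q103.SD.Sparse

/-!
# abc for a power of a prime times a free factor and two products of powers of numbers with small
digits

Let `t` be a large power of a prime `p`. The bases are numbers with small digits (of either sign) in
base `t` whose first and last digits are `1` or `-1`. The equation is
`p ^ m * u + β * ∏ q_i ^ b_i = γ * ∏ q_i ^ c_i`, with arbitrary exponents `m`, `b_i`, `c_i` and an
arbitrary nonzero integer `u`.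
-/

set_option autoImplicit false

namespace Pool.Agent.Results.MP_2ec8a3_nt.SparseBases

open Polynomial Finset

/-- The product of the distinct primes dividing `n`. -/
def rad (n : ℤ) : ℕ := ∏ p ∈ n.natAbs.primeFactors, p

/-- The set of the bases that occur in one of the two products. -/
def used {n : ℕ} (b c : Fin n → ℕ) : Finset (Fin n) :=
  Finset.univ.filter (fun i => b i ≠ 0 ∨ c i ≠ 0)

/-- The bases `F_i(t)`, `i < n`, are the values at `t` of nonconstant polynomials with coefficients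
(digits) of absolute value at most `H` and first and last digit `1` or `-1`, of total degree at most
`K`; the coefficients `β`, `γ` are nonzero of absolute value at most `H`. -/
structure Bases (K : ℕ) (H : ℝ) {n : ℕ} (F : Fin n → ℤ[X]) (β γ : ℤ) : Prop where
  pos : ∀ i, 0 < (F i).natDegree
  deg : ∑ i, (F i).natDegree ≤ K
  digits : ∀ i j, |((F i).coeff j : ℝ)| ≤ H
  last : ∀ i, (F i).coeff 0 = 1 ∨ (F i).coeff 0 = -1
  first : ∀ i, (F i).leadingCoeff = 1 ∨ (F i).leadingCoeff = -1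
  ne : β ≠ 0 ∧ γ ≠ 0
  coef : |(β : ℝ)| ≤ H ∧ |(γ : ℝ)| ≤ H

theorem result (K : ℕ) (ε : ℝ) (hε : 0 < ε) : ∃ δ : ℝ, 0 < δ ∧ ∃ t₀ : ℕ, ∀ p v t : ℕ, p.Prime →
    t = p ^ v → t₀ ≤ t →
    ∀ (n : ℕ) (F : Fin n → ℤ[X]) (β γ : ℤ), Bases K ((t : ℝ) ^ δ) F β γ →
    ∀ b c : Fin n → ℕ, (used b c).Nonempty → ∀ (m : ℕ) (u : ℤ), u ≠ 0 →
      (p : ℤ) ^ m * u + β * ∏ i, (F i).eval (t : ℤ) ^ b i =
        γ * ∏ i, (F i).eval (t : ℤ) ^ c i →
      ∀ x : ℤ, x = β * ∏ i, (F i).eval (t : ℤ) ^ b i ∨ x = γ * ∏ i, (F i).eval (t : ℤ) ^ c i →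
        |(x : ℝ)| ^ (1 - ε) ≤ |((u * ∏ i ∈ used b c, (F i).eval (t : ℤ) : ℤ) : ℝ)| ∧
        |(x : ℝ)| ^ (1 - ε) * rad (u * ∏ i ∈ used b c, (F i).eval (t : ℤ)) ≤
          |((u * ∏ i ∈ used b c, (F i).eval (t : ℤ) : ℤ) : ℝ)| *
            rad (((p : ℤ) ^ m * u) * (β * ∏ i, (F i).eval (t : ℤ) ^ b i) *
              (γ * ∏ i, (F i).eval (t : ℤ) ^ c i)) ∧
        (Squarefree (u * ∏ i ∈ used b c, (F i).eval (t : ℤ)) →
          |(x : ℝ)| ^ (1 - ε) ≤ rad (((p : ℤ) ^ m * u) * (β * ∏ i, (F i).eval (t : ℤ) ^ b i) *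
              (γ * ∏ i, (F i).eval (t : ℤ) ^ c i))) := by
  obtain ⟨δ, hδ, hδ', t₀, ht₀, h⟩ := Pool.Agent.Q103.SD.sparse K (min ε 1) (lt_min hε one_pos)
  refine ⟨δ, hδ, t₀, ?_⟩
  intro p v t hp htp ht n F β γ hS b c hU m u hu heq x hx
  have htR : (64 : ℝ) ≤ t := by exact_mod_cast ht₀.trans ht
  have ht0 : (0 : ℝ) < t := by linarith
  obtain ⟨H, hH⟩ : ∃ H : ℝ, H = (t : ℝ) ^ δ := ⟨_, rfl⟩
  have hD : Pool.Agent.Q103.SD.Data2 t K ((t : ℝ) ^ δ) F β γ :=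
    ⟨hS.pos, hS.deg, hS.digits, hS.last, hS.first, hS.ne.1, hS.ne.2, hS.coef.1, hS.coef.2⟩
  have hmain := h p v t hp htp ht n F β γ hD b c hU m u hu (by rw [← heq]; ring)
  have hH1 : 1 ≤ H := by rw [hH]; exact Real.one_le_rpow (by linarith) hδ.le
  have hHt : 8 * H ≤ t := by
    obtain ⟨r, hr⟩ : ∃ r : ℝ, r = (t : ℝ) ^ (1 / 2 : ℝ) := ⟨_, rfl⟩
    have hrr : r * r = t := by
      rw [hr, ← Real.rpow_add ht0]
      norm_num
    have hr8 : 8 ≤ r := by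
      have hr0 : 0 ≤ r := by rw [hr]; positivity
      nlinarith
    have hHr : H ≤ r := by
      rw [hH, hr]
      exact Real.rpow_le_rpow_of_exponent_le (by linarith) (by linarith)
    nlinarith
  have hF0 : ∀ i, (F i).eval (t : ℤ) ≠ 0 := by
    intro i h0
    have h3 := (Pool.Agent.Q103.SD.values (H := H) (by rw [hH]; exact hD) (ht₀.trans ht) hH1
      hHt).2.1 i
    rw [h0, Int.cast_zero, abs_zero] at h3
    linarith
  have hprod : ∀ e : Fin n → ℕ, ∏ i, (F i).eval (t : ℤ) ^ e i ≠ 0 := fun e =>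
    Finset.prod_ne_zero_iff.mpr fun i _ => pow_ne_zero _ (hF0 i)
  obtain ⟨Q, hQ⟩ : ∃ Q : ℤ, Q = ∏ i ∈ used b c, (F i).eval (t : ℤ) := ⟨_, rfl⟩
  obtain ⟨A, hA⟩ : ∃ A : ℤ, A = (p : ℤ) ^ m * u := ⟨_, rfl⟩
  obtain ⟨B, hB⟩ : ∃ B : ℤ, B = β * ∏ i, (F i).eval (t : ℤ) ^ b i := ⟨_, rfl⟩
  obtain ⟨G, hG⟩ : ∃ G : ℤ, G = γ * ∏ i, (F i).eval (t : ℤ) ^ c i := ⟨_, rfl⟩
  have hB0 : B ≠ 0 := by rw [hB]; exact mul_ne_zero hS.ne.1 (hprod b)
  have hG0 : G ≠ 0 := by rw [hG]; exact mul_ne_zero hS.ne.2 (hprod c)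
  have hA0 : A ≠ 0 := by
    rw [hA]
    exact mul_ne_zero (pow_ne_zero _ (by exact_mod_cast hp.ne_zero)) hu
  have hABG : A * B * G ≠ 0 := mul_ne_zero (mul_ne_zero hA0 hB0) hG0
  have hx0 : x ≠ 0 := by
    rcases hx with h4 | h4 <;> rw [h4]
    · rw [← hB]; exact hB0
    · rw [← hG]; exact hG0
  have hx1 : (1 : ℝ) ≤ |(x : ℝ)| := by exact_mod_cast Int.one_le_abs hx0
  have hmain' : |(x : ℝ)| ^ (1 - ε) ≤ |((u * Q : ℤ) : ℝ)| := by
    have h5 : |(x : ℝ)| ^ (1 - ε) ≤ |(x : ℝ)| ^ (1 - min ε 1) :=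
      Real.rpow_le_rpow_of_exponent_le hx1 (by linarith [min_le_left ε 1])
    refine h5.trans ?_
    have h6 : |(x : ℝ)| ^ (1 - min ε 1) ≤
        (max |((γ * ∏ i, (F i).eval (t : ℤ) ^ c i : ℤ) : ℝ)|
          |((β * ∏ i, (F i).eval (t : ℤ) ^ b i : ℤ) : ℝ)|) ^ (1 - min ε 1) := by
      apply Real.rpow_le_rpow (abs_nonneg _) _ (by linarith [min_le_right ε 1])
      rcases hx with h4 | h4 <;> rw [h4]
      · exact le_max_right _ _
      · exact le_max_left _ _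
    refine h6.trans (hmain.trans (le_of_eq ?_))
    rw [hQ, Int.cast_mul, abs_mul]
    rfl
  rw [← hQ, ← hA, ← hB, ← hG]
  have huQ0 : u * Q ≠ 0 := mul_ne_zero hu (by
    rw [hQ]; exact Finset.prod_ne_zero_iff.mpr fun i _ => hF0 i)
  have hrad : rad (u * Q) ≤ rad (A * B * G) := by
    refine Pool.Agent.Q103.SD.rad_le hABG fun l hl hluQ => ?_
    have hll : Prime (l : ℤ) := Nat.prime_iff_prime_int.mp hl
    rcases hll.dvd_or_dvd hluQ with hlu | hlQ
    · rw [hA]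
      exact ((hlu.mul_left _).mul_right _).mul_right _
    · rw [hQ] at hlQ
      obtain ⟨i, hi, hli⟩ := (hll.dvd_finsetProd_iff _).mp hlQ
      have hd : ∀ e : Fin n → ℕ, e i ≠ 0 → (l : ℤ) ∣ ∏ i, (F i).eval (t : ℤ) ^ e i := fun e he =>
        (hli.trans (dvd_pow_self _ he)).trans
          (Finset.dvd_prod_of_mem (fun i => (F i).eval (t : ℤ) ^ e i) (Finset.mem_univ i))
      rcases (Finset.mem_filter.mp hi).2 with h | h
      · rw [hB]
        exact (((hd b h).mul_left _).mul_left _).mul_right _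
      · rw [hG]
        exact ((hd c h).mul_left _).mul_left _
  have hradR : (rad (u * Q) : ℝ) ≤ rad (A * B * G) := by exact_mod_cast hrad
  have hsecond : |(x : ℝ)| ^ (1 - ε) * rad (u * Q) ≤ |((u * Q : ℤ) : ℝ)| * rad (A * B * G) :=
    mul_le_mul hmain' hradR (by positivity) (abs_nonneg _)
  refine ⟨hmain', hsecond, fun hsq => hmain'.trans ?_⟩
  have hQrad : |((u * Q : ℤ) : ℝ)| = rad (u * Q) := by
    have h3 : Squarefree (u * Q).natAbs := Int.squarefree_natAbs.mpr hsq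
    have h4 : rad (u * Q) = (u * Q).natAbs := Nat.prod_primeFactors_of_squarefree h3
    rw [h4, Nat.cast_natAbs]
    push_cast
    rfl
  rw [hQrad]
  exact hradR

end Pool.Agent.Results.MP_2ec8a3_nt.SparseBases
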